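import Mathlib

set_option autoImplicit false

namespace Pool.Agent.Lib.MP_a3e24b_co

open Finset

/-- A length function on an abelian group. -/
structure IsLen {G : Type} [AddCommGroup G] (N : G → ℕ) : Prop where
  zero : N 0 = 0
  neg : ∀ x, N (-x) = N x
  add : ∀ x y, N (x + y) ≤ N x + N y

/-- `a` is covered by the set of centres `L`: exactly one centre is within `r + s` of `a`, and it
is within `r` of `a`. -/
def Covered {G : Type} [AddCommGroup G] (N : G → ℕ) (r s : ℕ) (L : Finset G) (a : G) : Prop :=
  ∃ l ∈ L, N (a - l) ≤ r ∧ ∀ m ∈ L, N (a - m) ≤ r + s → m = l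

section Abstract

variable {G : Type} [AddCommGroup G] [Fintype G]

/-- number of elements of length at most `r` -/
noncomputable def ballCard (N : G → ℕ) (r : ℕ) : ℕ := by
  classical
  exact (univ.filter (fun x : G => N x ≤ r)).card

theorem ballCard_eq (N : G → ℕ) (r : ℕ) (a : G) [DecidableEq G]
    [DecidablePred fun x => N (a - x) ≤ r] :
    (univ.filter (fun x : G => N (a - x) ≤ r)).card = ballCard N r := by
  classical
  unfold ballCard
  apply Finset.card_bij (fun x _ => a - x)
  · intro x hx
    simpa using hx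
  · intro x _ y _ h
    have := sub_right_injective h
    exact this
  · intro y hy
    refine ⟨a - y, ?_, by abel⟩
    simpa using hy

theorem ballCard_pos (N : G → ℕ) (hN : IsLen N) (r : ℕ) : 1 ≤ ballCard N r := by
  classical
  unfold ballCard
  rw [Nat.one_le_iff_ne_zero, ← Nat.pos_iff_ne_zero, Finset.card_pos]
  exact ⟨0, by simp [hN.zero]⟩

omit [Fintype G] in
/-- Chains of short steps inside the set covered by `L` stay near one centre. -/
theorem chain_short (N : G → ℕ) (hN : IsLen N) (r s : ℕ) (L : Finset G) (k : ℕ)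
    (f : Fin (k + 1) → G) (hf : ∀ i : Fin k, N (f i.castSucc - f i.succ) ≤ s)
    (hc : ∀ i, Covered N r s L (f i)) : N (f 0 - f (Fin.last k)) ≤ 2 * r := by
  obtain ⟨l, hl, hl1, hl2⟩ := hc 0
  have key : ∀ i : Fin (k + 1), N (f i - l) ≤ r ∧ ∀ m ∈ L, N (f i - m) ≤ r + s → m = l := by
    intro i
    induction i using Fin.induction with
    | zero => exact ⟨hl1, hl2⟩
    | succ i ih =>
      obtain ⟨m, hm, hm1, hm2⟩ := hc i.succ
      have h1 : N (f i.castSucc - m) ≤ r + s := by
        have e : f i.castSucc - m = (f i.castSucc - f i.succ) + (f i.succ - m) := by abel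
        rw [e]
        have := hN.add (f i.castSucc - f i.succ) (f i.succ - m)
        have := hf i
        omega
      have h2 := ih.2 m hm h1
      subst h2
      exact ⟨hm1, hm2⟩
  have h3 := (key (Fin.last k)).1
  have e : f 0 - f (Fin.last k) = (f 0 - l) + (-(f (Fin.last k) - l)) := by abel
  rw [e]
  have h4 := hN.add (f 0 - l) (-(f (Fin.last k) - l))
  rw [hN.neg] at h4
  omega

/-- Averaging step: some set of centres covers a definite proportion of `U`. -/
theorem exists_good_centres (N : G → ℕ) (hN : IsLen N) (r s : ℕ) (U : Finset G) :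
    ∃ L : Finset G, ∃ W : Finset G, W ⊆ U ∧ (∀ a ∈ W, Covered N r s L a) ∧
      ((ballCard N r : ℝ) / (6 * ballCard N (r + s))) * U.card ≤ W.card := by
  classical
  set V := ballCard N (r + s) with hV
  have hVpos : 1 ≤ V := ballCard_pos N hN (r + s)
  set Q : ℕ := 2 * V with hQ
  -- random labellings
  let Lof : (G → Fin (Q + 1)) → Finset G := fun ω => univ.filter (fun x => ω x = 0)
  -- number of good labellings for a given point and centre
  have hE : ∀ a l : G, N (a - l) ≤ r →
      ((Q + 1 : ℝ) ^ Fintype.card G) / (6 * V) ≤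
        ((univ.filter (fun ω : G → Fin (Q + 1) => ω l = 0 ∧
          ∀ m, m ≠ l → N (a - m) ≤ r + s → ω m ≠ 0)).card : ℝ) := by
    intro a l hal
    let S : G → Finset (Fin (Q + 1)) := fun m =>
      if m = l then {0} else if N (a - m) ≤ r + s then univ.erase 0 else univ
    have hset : (univ.filter (fun ω : G → Fin (Q + 1) => ω l = 0 ∧
          ∀ m, m ≠ l → N (a - m) ≤ r + s → ω m ≠ 0)) = Fintype.piFinset S := by
      ext ω
      simp only [mem_filter, mem_univ, true_and, Fintype.mem_piFinset]
      constructor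
      · rintro ⟨h1, h2⟩ m
        by_cases hm : m = l
        · simp [S, hm, h1]
        · by_cases hm2 : N (a - m) ≤ r + s
          · simp [S, hm, hm2, h2 m hm hm2]
          · simp [S, hm, hm2]
      · intro h
        refine ⟨?_, ?_⟩
        · have := h l
          simpa [S] using this
        · intro m hm hm2
          have := h m
          simpa [S, hm, hm2] using this
    rw [hset, Fintype.card_piFinset]
    push_cast
    have hterm : ∀ m ∈ (univ : Finset G), (Q + 1 : ℝ) * ((if m = l then (1 / (Q + 1) : ℝ) else 1) *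
        (if N (a - m) ≤ r + s then (Q / (Q + 1) : ℝ) else 1)) ≤ ((S m).card : ℝ) := by
      intro m _
      have hq : (0 : ℝ) < Q + 1 := by positivity
      by_cases hm : m = l
      · subst hm
        have h1 : N (a - m) ≤ r + s := by omega
        have e : (Q + 1 : ℝ) * (1 / (Q + 1) * (Q / (Q + 1))) = Q / (Q + 1) := by
          field_simp
        simp only [S, if_true, h1, card_singleton, Nat.cast_one]
        rw [e, div_le_one hq]
        linarith
      · by_cases hm2 : N (a - m) ≤ r + s
        · simp only [S, hm, hm2, if_true, if_false, one_mul]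
          rw [card_erase_of_mem (mem_univ _), card_univ, Fintype.card_fin]
          simp only [add_tsub_cancel_right]
          rw [mul_div_cancel₀ _ hq.ne']
        · simp only [S, hm, hm2, if_false, mul_one]
          rw [card_univ, Fintype.card_fin]
          push_cast
          exact le_refl _
    have hprod := Finset.prod_le_prod (fun m _ => by
      have hq : (0 : ℝ) < Q + 1 := by positivity
      have h2 : (0 : ℝ) ≤ if m = l then (1 / (Q + 1) : ℝ) else 1 := by
        split_ifs <;> positivity
      have h3 : (0 : ℝ) ≤ if N (a - m) ≤ r + s then (Q / (Q + 1) : ℝ) else 1 := by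
        split_ifs <;> positivity
      exact mul_nonneg hq.le (mul_nonneg h2 h3)) hterm
    refine le_trans ?_ hprod
    rw [Finset.prod_mul_distrib, Finset.prod_mul_distrib, Finset.prod_const, card_univ,
      Finset.prod_ite_eq' univ l, if_pos (mem_univ _), Finset.prod_ite, Finset.prod_const,
      Finset.prod_const_one, mul_one, ballCard_eq N (r + s) a, ← hV]
    have hq : (0 : ℝ) < Q + 1 := by positivity
    have hVr : (1 : ℝ) ≤ V := by exact_mod_cast hVpos
    have hQr : (Q : ℝ) = 2 * V := by rw [hQ]; push_cast; ring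
    have hb : (1 / 2 : ℝ) ≤ ((Q : ℝ) / (Q + 1)) ^ V := by
      have h1 : (Q : ℝ) / (Q + 1) = 1 + (-(1 / (Q + 1))) := by
        field_simp
        ring
      have h0 : 1 / ((Q : ℝ) + 1) ≤ 1 := by
        rw [div_le_one hq]
        linarith [Nat.cast_nonneg (α := ℝ) Q]
      have h2 := one_add_mul_le_pow (R := ℝ) (a := -(1 / (Q + 1))) (by linarith) V
      rw [h1]
      refine le_trans ?_ h2
      have h3 : (V : ℝ) * (1 / (Q + 1)) ≤ 1 / 2 := by
        rw [mul_one_div, div_le_iff₀ hq, hQr]
        linarith
      linarith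
    have hpow : (0 : ℝ) < (Q + 1 : ℝ) ^ Fintype.card G := by positivity
    have h4 : 1 / (6 * (V : ℝ)) ≤ 1 / (Q + 1) * (Q / (Q + 1)) ^ V := by
      have h5 : 1 / (Q + 1 : ℝ) * (1 / 2) ≤ 1 / (Q + 1) * (Q / (Q + 1)) ^ V :=
        mul_le_mul_of_nonneg_left hb (by positivity)
      refine le_trans ?_ h5
      rw [hQr, div_mul_div_comm, div_le_div_iff₀ (by positivity) (by positivity)]
      nlinarith
    calc (Q + 1 : ℝ) ^ Fintype.card G / (6 * V)
        = (Q + 1 : ℝ) ^ Fintype.card G * (1 / (6 * V)) := by ring
      _ ≤ (Q + 1 : ℝ) ^ Fintype.card G * (1 / (Q + 1) * (Q / (Q + 1)) ^ V) :=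
          mul_le_mul_of_nonneg_left h4 hpow.le
  -- number of good labellings for a given point
  have hA : ∀ a : G, (ballCard N r : ℝ) / (6 * V) * (Q + 1 : ℝ) ^ Fintype.card G ≤
      ((univ.filter (fun ω : G → Fin (Q + 1) => Covered N r s (Lof ω) a)).card : ℝ) := by
    intro a
    let B : Finset G := univ.filter (fun l => N (a - l) ≤ r)
    have hBcard : B.card = ballCard N r := ballCard_eq N r a
    let E : G → Finset (G → Fin (Q + 1)) := fun l =>
      univ.filter (fun ω : G → Fin (Q + 1) => ω l = 0 ∧
          ∀ m, m ≠ l → N (a - m) ≤ r + s → ω m ≠ 0)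
    have hdisj : (B : Set G).PairwiseDisjoint E := by
      intro l hl l' hl' hne
      rw [Function.onFun, Finset.disjoint_left]
      intro ω h1 h2
      simp only [E, mem_filter, mem_univ, true_and] at h1 h2
      have hl'' : N (a - l) ≤ r := by simpa [B] using hl
      exact h2.2 l hne (by omega) h1.1
    have hsub : B.biUnion E ⊆
        univ.filter (fun ω : G → Fin (Q + 1) => Covered N r s (Lof ω) a) := by
      intro ω hω
      rw [mem_biUnion] at hω
      obtain ⟨l, hl, hlω⟩ := hω
      simp only [E, mem_filter, mem_univ, true_and] at hlω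
      simp only [mem_filter, mem_univ, true_and]
      refine ⟨l, ?_, ?_, ?_⟩
      · simp [Lof, hlω.1]
      · simpa [B] using hl
      · intro m hm hm2
        by_contra hne
        apply hlω.2 m hne hm2
        simpa [Lof] using hm
    have h1 := card_le_card hsub
    rw [card_biUnion hdisj] at h1
    have h2 : ∑ l ∈ B, (((Q + 1 : ℝ) ^ Fintype.card G) / (6 * V)) ≤
        ∑ l ∈ B, ((E l).card : ℝ) := by
      apply sum_le_sum
      intro l hl
      exact hE a l (by simpa [B] using hl)
    rw [sum_const, hBcard, nsmul_eq_mul] at h2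
    have h3 : ∑ l ∈ B, ((E l).card : ℝ) ≤
        ((univ.filter (fun ω : G → Fin (Q + 1) => Covered N r s (Lof ω) a)).card : ℝ) := by
      exact_mod_cast h1
    calc (ballCard N r : ℝ) / (6 * V) * (Q + 1 : ℝ) ^ Fintype.card G
        = (ballCard N r : ℝ) * ((Q + 1 : ℝ) ^ Fintype.card G / (6 * V)) := by ring
      _ ≤ _ := h2.trans h3
  -- double counting
  have hdc : ∑ ω : G → Fin (Q + 1), ((ballCard N r : ℝ) / (6 * V) * U.card) ≤
      ∑ ω : G → Fin (Q + 1), ((U.filter (fun a => Covered N r s (Lof ω) a)).card : ℝ) := by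
    have h1 : ∑ ω : G → Fin (Q + 1), ((U.filter (fun a => Covered N r s (Lof ω) a)).card : ℝ)
        = ∑ a ∈ U, ((univ.filter
            (fun ω : G → Fin (Q + 1) => Covered N r s (Lof ω) a)).card : ℝ) := by
      have := Finset.sum_card_bipartiteAbove_eq_sum_card_bipartiteBelow
        (fun (ω : G → Fin (Q + 1)) (a : G) => Covered N r s (Lof ω) a) (s := univ) (t := U)
      simp only [bipartiteAbove, bipartiteBelow] at this
      exact_mod_cast this
    rw [h1, sum_const, card_univ, Fintype.card_fun, Fintype.card_fin, nsmul_eq_mul]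
    have h2 : ∑ a ∈ U, ((ballCard N r : ℝ) / (6 * V) * (Q + 1 : ℝ) ^ Fintype.card G) ≤
        ∑ a ∈ U, ((univ.filter
            (fun ω : G → Fin (Q + 1) => Covered N r s (Lof ω) a)).card : ℝ) :=
      sum_le_sum (fun a _ => hA a)
    rw [sum_const, nsmul_eq_mul] at h2
    refine le_trans (le_of_eq ?_) h2
    push_cast
    ring
  obtain ⟨ω, _, hω⟩ := exists_le_of_sum_le (univ_nonempty) hdc
  refine ⟨Lof ω, U.filter (fun a => Covered N r s (Lof ω) a), filter_subset _ _, ?_, hω⟩
  intro a ha
  exact (mem_filter.1 ha).2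

/-- Iterated covering: after `m` steps at most a `(1 - p) ^ m` fraction is uncovered. -/
theorem exists_cover_seq (N : G → ℕ) (hN : IsLen N) (r s : ℕ) (p : ℝ)
    (hp : p = (ballCard N r : ℝ) / (6 * ballCard N (r + s))) (hp1 : p ≤ 1) (m : ℕ) :
    ∃ L : ℕ → Finset G, ∃ U : Finset G, (∀ a, a ∉ U → ∃ i < m, Covered N r s (L i) a) ∧
      (U.card : ℝ) ≤ (1 - p) ^ m * Fintype.card G := by
  classical
  induction m with
  | zero =>
    refine ⟨fun _ => ∅, univ, ?_, ?_⟩
    · intro a ha
      exact absurd (mem_univ a) ha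
    · simp
  | succ m ih =>
    obtain ⟨L, U, h1, h2⟩ := ih
    obtain ⟨L', W, hWU, hW, hcard⟩ := exists_good_centres N hN r s U
    rw [← hp] at hcard
    refine ⟨Function.update L m L', U \ W, ?_, ?_⟩
    · intro a ha
      by_cases haU : a ∈ U
      · have haW : a ∈ W := by
          by_contra h
          exact ha (mem_sdiff.2 ⟨haU, h⟩)
        refine ⟨m, Nat.lt_succ_self m, ?_⟩
        rw [Function.update_self]
        exact hW a haW
      · obtain ⟨i, hi, hi2⟩ := h1 a haU
        refine ⟨i, by omega, ?_⟩
        rw [Function.update_of_ne (by omega)]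
        exact hi2
    · rw [cast_card_sdiff hWU, pow_succ]
      have h3 : (0 : ℝ) ≤ 1 - p := by linarith
      calc (U.card : ℝ) - W.card ≤ U.card - p * U.card := by linarith
        _ = (1 - p) * U.card := by ring
        _ ≤ (1 - p) * ((1 - p) ^ m * Fintype.card G) := mul_le_mul_of_nonneg_left h2 h3
        _ = _ := by ring

/-- The colouring of the finite group. -/
theorem exists_colouring (N : G → ℕ) (hN : IsLen N) (r s : ℕ) (m : ℕ)
    (hm : Real.log (Fintype.card G) * (6 * ballCard N (r + s)) / ballCard N r < m) :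
    ∃ c : G → Fin m, ∀ (k : ℕ) (f : Fin (k + 1) → G),
      (∀ i : Fin k, N (f i.castSucc - f i.succ) ≤ s) → (∀ i j, c (f i) = c (f j)) →
      N (f 0 - f (Fin.last k)) ≤ 2 * r := by
  classical
  set p : ℝ := (ballCard N r : ℝ) / (6 * ballCard N (r + s)) with hp
  have hr : (1 : ℝ) ≤ ballCard N r := by exact_mod_cast ballCard_pos N hN r
  have hrs : (1 : ℝ) ≤ ballCard N (r + s) := by exact_mod_cast ballCard_pos N hN (r + s)
  have hmono : (ballCard N r : ℝ) ≤ ballCard N (r + s) := by
    have : ballCard N r ≤ ballCard N (r + s) := by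
      unfold ballCard
      apply card_le_card
      intro x hx
      simp only [mem_filter, mem_univ, true_and] at hx ⊢
      omega
    exact_mod_cast this
  have hp0 : 0 < p := by positivity
  have hp1 : p ≤ 1 := by
    rw [hp, div_le_one (by positivity)]
    linarith
  obtain ⟨L, U, h1, h2⟩ := exists_cover_seq N hN r s p hp hp1 m
  have hG : (0 : ℝ) < Fintype.card G := by exact_mod_cast Fintype.card_pos
  have hU : U = ∅ := by
    rw [← card_eq_zero]
    by_contra hne
    have h3 : (1 : ℝ) ≤ U.card := by
      exact_mod_cast Nat.one_le_iff_ne_zero.2 hne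
    have h4 : (1 - p) ^ m ≤ Real.exp (-(p * m)) := by
      have h5 : 1 - p ≤ Real.exp (-p) := by
        have := Real.add_one_le_exp (-p)
        linarith
      calc (1 - p) ^ m ≤ (Real.exp (-p)) ^ m := pow_le_pow_left₀ (by linarith) h5 m
        _ = Real.exp (-(p * m)) := by rw [← Real.exp_nat_mul]; ring_nf
    have h6 : Real.log (Fintype.card G) < p * m := by
      have h7 : Real.log (Fintype.card G) * (6 * ballCard N (r + s)) / ballCard N r
          = Real.log (Fintype.card G) / p := by
        rw [hp]
        field_simp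
      rw [h7, div_lt_iff₀ hp0] at hm
      linarith
    have h8 : Real.exp (-(p * m)) * Fintype.card G < 1 := by
      rw [← Real.exp_log hG] at *
      rw [← Real.exp_add]
      rw [Real.exp_lt_one_iff]
      rw [Real.log_exp] at *
      linarith
    have h9 : (1 - p) ^ m * Fintype.card G ≤ Real.exp (-(p * m)) * Fintype.card G :=
      mul_le_mul_of_nonneg_right h4 hG.le
    linarith
  have hcov : ∀ a : G, ∃ i : Fin m, Covered N r s (L i) a := by
    intro a
    obtain ⟨i, hi, hi2⟩ := h1 a (by rw [hU]; simp)
    exact ⟨⟨i, hi⟩, hi2⟩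
  choose c hc using hcov
  refine ⟨c, ?_⟩
  intro k f hf hmono
  apply chain_short N hN r s (L (c (f 0))) k f hf
  intro i
  rw [hmono 0 i]
  exact hc (f i)

end Abstract

end Pool.Agent.Lib.MP_a3e24b_co
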