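import Mathlib
import Pool.Agent.Lib.MP_a3e24b_co.Covering

set_option autoImplicit false

namespace Pool.Agent.Lib.MP_a3e24b_co

open Finset

/-- The `ℓ₁` length on the discrete torus. -/
def tlen (n M : ℕ) (a : Fin n → ZMod M) : ℕ := ∑ t, (a t).valMinAbs.natAbs

theorem isLen_tlen (n M : ℕ) : IsLen (tlen n M) where
  zero := by simp [tlen]
  neg := by
    intro x
    simp [tlen, ZMod.natAbs_valMinAbs_neg]
  add := by
    intro x y
    unfold tlen
    rw [← sum_add_distrib]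
    apply sum_le_sum
    intro t _
    calc ((x + y) t).valMinAbs.natAbs = (x t + y t).valMinAbs.natAbs := rfl
      _ ≤ ((x t).valMinAbs + (y t).valMinAbs).natAbs := ZMod.natAbs_valMinAbs_add_le _ _
      _ ≤ _ := Int.natAbs_add_le _ _

/-- The one-dimensional weight sum. -/
theorem weight_sum_le (M : ℕ) [NeZero M] (x : ℝ) (hx0 : 0 ≤ x) (hx1 : x < 1) :
    ∑ t : ZMod M, x ^ t.valMinAbs.natAbs ≤ 2 / (1 - x) := by
  classical
  have hmaps : ∀ t ∈ (univ : Finset (ZMod M)), t.valMinAbs.natAbs ∈ range (M + 1) := by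
    intro t _
    rw [mem_range]
    have := ZMod.natAbs_valMinAbs_le t
    omega
  rw [← sum_fiberwise_of_maps_to hmaps]
  have h1 : ∀ j ∈ range (M + 1),
      ∑ t ∈ (univ : Finset (ZMod M)) with t.valMinAbs.natAbs = j, x ^ t.valMinAbs.natAbs
        ≤ 2 * x ^ j := by
    intro j _
    have h2 : ∑ t ∈ (univ : Finset (ZMod M)) with t.valMinAbs.natAbs = j,
        x ^ t.valMinAbs.natAbs
        = ∑ t ∈ (univ : Finset (ZMod M)) with t.valMinAbs.natAbs = j, x ^ j := by
      apply sum_congr rfl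
      intro t ht
      rw [(mem_filter.1 ht).2]
    rw [h2, sum_const, nsmul_eq_mul]
    apply mul_le_mul_of_nonneg_right _ (pow_nonneg hx0 j)
    have h3 : (univ.filter (fun t : ZMod M => t.valMinAbs.natAbs = j)).card ≤
        ({(j : ℤ), -(j : ℤ)} : Finset ℤ).card := by
      apply card_le_card_of_injOn (fun t => t.valMinAbs)
      · intro t ht
        have ht' : t.valMinAbs.natAbs = j := by simpa using ht
        simp only [coe_insert, coe_singleton, Set.mem_insert_iff, Set.mem_singleton_iff]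
        omega
      · intro t _ t' _ h
        exact ZMod.injective_valMinAbs h
    have h4 : ({(j : ℤ), -(j : ℤ)} : Finset ℤ).card ≤ 2 := card_le_two
    exact_mod_cast h3.trans h4
  refine (sum_le_sum h1).trans ?_
  rw [← mul_sum]
  have h5 := mul_neg_geom_sum x (M + 1)
  have h6 : (0 : ℝ) < 1 - x := by linarith
  rw [le_div_iff₀ h6]
  have h7 : (0 : ℝ) ≤ x ^ (M + 1) := pow_nonneg hx0 _
  nlinarith

/-- Crude volume bound for the `ℓ₁` ball in the discrete torus. -/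
theorem ballCard_tlen_le (n M J : ℕ) [NeZero M] (hJ : 1 ≤ J) :
    (ballCard (tlen n M) (2 * n * J) : ℝ) ≤ (16 * J : ℝ) ^ n := by
  classical
  have hJr : (1 : ℝ) ≤ J := by exact_mod_cast hJ
  set x : ℝ := 1 - 1 / (2 * J) with hx
  have hx2 : 1 / (2 * (J : ℝ)) ≤ 1 / 2 := by
    rw [div_le_div_iff₀ (by positivity) (by norm_num)]
    linarith
  have hx0 : 0 ≤ x := by rw [hx]; linarith
  have hpos : (0 : ℝ) < 1 / (2 * (J : ℝ)) := by positivity
  have hx1 : x < 1 := by rw [hx]; linarith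
  have hxJ : (1 / 2 : ℝ) ≤ x ^ J := by
    have h := one_add_mul_le_pow (R := ℝ) (a := -(1 / (2 * J))) (by linarith) J
    have e : (1 : ℝ) + -(1 / (2 * J)) = x := by rw [hx]; ring
    rw [e] at h
    refine le_trans ?_ h
    have : (J : ℝ) * (1 / (2 * J)) = 1 / 2 := by field_simp
    linarith
  have hxx : (1 / 4 : ℝ) ^ n ≤ x ^ (2 * n * J) := by
    have e : x ^ (2 * n * J) = ((x ^ J) ^ 2) ^ n := by
      rw [← pow_mul, ← pow_mul]
      congr 1
      ring
    rw [e]
    apply pow_le_pow_left₀ (by norm_num)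
    nlinarith
  -- total weight
  have htot : ∑ a : Fin n → ZMod M, x ^ (tlen n M a) ≤ (4 * J : ℝ) ^ n := by
    have h1 : ∀ a : Fin n → ZMod M, x ^ (tlen n M a) = ∏ t, x ^ (a t).valMinAbs.natAbs := by
      intro a
      rw [tlen, Finset.prod_pow_eq_pow_sum]
    simp only [h1]
    have h0 := Finset.prod_univ_sum (fun _ : Fin n => (univ : Finset (ZMod M)))
      (fun _ t => x ^ t.valMinAbs.natAbs)
    rw [Fintype.piFinset_univ] at h0
    rw [← h0, prod_const, card_univ, Fintype.card_fin]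
    apply pow_le_pow_left₀
    · exact sum_nonneg (fun t _ => pow_nonneg hx0 _)
    · refine (weight_sum_le M x hx0 hx1).trans (le_of_eq ?_)
      rw [hx]
      field_simp
      ring
  have h2 : (ballCard (tlen n M) (2 * n * J) : ℝ) * (1 / 4) ^ n ≤
      ∑ a : Fin n → ZMod M, x ^ (tlen n M a) := by
    unfold ballCard
    rw [← nsmul_eq_mul, ← sum_const]
    refine le_trans ?_ (sum_le_sum_of_subset_of_nonneg
      (filter_subset (fun a : Fin n → ZMod M => tlen n M a ≤ 2 * n * J) univ)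
      (fun a _ _ => pow_nonneg hx0 _))
    apply sum_le_sum
    intro a ha
    refine hxx.trans ?_
    exact pow_le_pow_of_le_one hx0 hx1.le (mem_filter.1 ha).2
  have h3 := h2.trans htot
  have h4 : (ballCard (tlen n M) (2 * n * J) : ℝ) =
      (ballCard (tlen n M) (2 * n * J) : ℝ) * (1 / 4) ^ n * 4 ^ n := by
    have h5 : (1 / 4 : ℝ) ^ n * 4 ^ n = 1 := by
      rw [← mul_pow]
      norm_num
    rw [mul_assoc (ballCard (tlen n M) (2 * n * J) : ℝ), h5, mul_one]
  rw [h4]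
  calc (ballCard (tlen n M) (2 * n * J) : ℝ) * (1 / 4) ^ n * 4 ^ n
      ≤ (4 * J : ℝ) ^ n * 4 ^ n := mul_le_mul_of_nonneg_right h3 (by positivity)
    _ = (16 * J : ℝ) ^ n := by rw [← mul_pow]; ring_nf

/-- Pigeonhole over the radii. -/
theorem exists_ratio (n M J : ℕ) [NeZero M] (hJ : 1 ≤ J) (ε : ℝ) (hε : 0 < ε)
    (h : (16 * J : ℝ) ≤ (1 + ε) ^ J) :
    ∃ j < J, (ballCard (tlen n M) (2 * n * j + 2 * n) : ℝ) ≤
      (1 + ε) ^ n * ballCard (tlen n M) (2 * n * j) := by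
  by_contra hcon
  push Not at hcon
  have hpos : (0 : ℝ) < (1 + ε) ^ n := by positivity
  have key : ∀ j ≤ J, ((1 + ε) ^ n) ^ j ≤ (ballCard (tlen n M) (2 * n * j) : ℝ) := by
    intro j
    induction j with
    | zero =>
      intro _
      have := ballCard_pos (tlen n M) (isLen_tlen n M) (2 * n * 0)
      simpa using this
    | succ j ih =>
      intro hj
      have h1 := hcon j (by omega)
      have h2 := ih (by omega)
      have e : 2 * n * (j + 1) = 2 * n * j + 2 * n := by ring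
      rw [e, pow_succ]
      calc ((1 + ε) ^ n) ^ j * (1 + ε) ^ n
          ≤ (ballCard (tlen n M) (2 * n * j) : ℝ) * (1 + ε) ^ n :=
            mul_le_mul_of_nonneg_right h2 hpos.le
        _ = (1 + ε) ^ n * ballCard (tlen n M) (2 * n * j) := by ring
        _ ≤ _ := h1.le
  obtain ⟨j, rfl⟩ : ∃ j, J = j + 1 := ⟨J - 1, by omega⟩
  have h1 := hcon j (by omega)
  have h2 := key j (by omega)
  have h3 := ballCard_tlen_le n M (j + 1) hJ
  have e : 2 * n * (j + 1) = 2 * n * j + 2 * n := by ring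
  rw [e] at h3
  have h4 : ((16 * ((j + 1 : ℕ) : ℝ)) : ℝ) ^ n ≤ ((1 + ε) ^ (j + 1)) ^ n :=
    pow_le_pow_left₀ (by positivity) h n
  have h5 : ((1 + ε) ^ (j + 1)) ^ n = (1 + ε) ^ n * ((1 + ε) ^ n) ^ j := by
    rw [← pow_mul, ← pow_mul, ← pow_add]
    congr 1
    ring
  have h6 : (1 + ε) ^ n * ((1 + ε) ^ n) ^ j ≤ (1 + ε) ^ n * ballCard (tlen n M) (2 * n * j) :=
    mul_le_mul_of_nonneg_left h2 hpos.le
  linarith

/-- Discretisation map `ℝⁿ → (ℤ/M)ⁿ`. -/
noncomputable def disc (n M : ℕ) (x : Fin n → ℝ) : Fin n → ZMod M :=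
  fun t => ((⌊(n : ℝ) * x t⌋ : ℤ) : ZMod M)

theorem natAbs_floor_sub (u v : ℝ) : ((⌊u⌋ - ⌊v⌋).natAbs : ℝ) ≤ |u - v| + 1 := by
  rw [Nat.cast_natAbs]
  push_cast
  have h1 := Int.floor_le u
  have h2 := Int.lt_floor_add_one u
  have h3 := Int.floor_le v
  have h4 := Int.lt_floor_add_one v
  rw [abs_le]
  have h5 := le_abs_self (u - v)
  have h6 := neg_abs_le (u - v)
  constructor <;> linarith

theorem natAbs_floor_sub' (u v : ℝ) : |u - v| - 1 ≤ ((⌊u⌋ - ⌊v⌋).natAbs : ℝ) := by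
  rw [Nat.cast_natAbs]
  push_cast
  have h1 := Int.floor_le u
  have h2 := Int.lt_floor_add_one u
  have h3 := Int.floor_le v
  have h4 := Int.lt_floor_add_one v
  have h5 := le_abs_self ((⌊u⌋ : ℝ) - ⌊v⌋)
  have h6 := neg_abs_le ((⌊u⌋ : ℝ) - ⌊v⌋)
  have : |u - v| ≤ |(⌊u⌋ : ℝ) - ⌊v⌋| + 1 := by
    rw [abs_le]
    constructor <;> linarith
  linarith

theorem disc_upper (n M : ℕ) [NeZero M] (x y : Fin n → ℝ) :
    (tlen n M (disc n M x - disc n M y) : ℝ) ≤ n * (∑ t, |x t - y t|) + n := by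
  unfold tlen
  push_cast
  have h : ∀ t ∈ (univ : Finset (Fin n)),
      (((disc n M x - disc n M y) t).valMinAbs.natAbs : ℝ) ≤ n * |x t - y t| + 1 := by
    intro t _
    have h1 : ((disc n M x - disc n M y) t).valMinAbs.natAbs ≤
        (⌊(n : ℝ) * x t⌋ - ⌊(n : ℝ) * y t⌋).natAbs := by
      apply ZMod.natAbs_min_of_le_div_two M _ _ _ (ZMod.natAbs_valMinAbs_le _)
      rw [ZMod.coe_valMinAbs]
      simp [disc]
    have h2 := natAbs_floor_sub ((n : ℝ) * x t) ((n : ℝ) * y t)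
    have h3 : |(n : ℝ) * x t - n * y t| = n * |x t - y t| := by
      rw [← mul_sub, abs_mul, Nat.abs_cast]
    rw [h3] at h2
    have h1' : (((disc n M x - disc n M y) t).valMinAbs.natAbs : ℝ) ≤
        ((⌊(n : ℝ) * x t⌋ - ⌊(n : ℝ) * y t⌋).natAbs : ℝ) := by exact_mod_cast h1
    linarith
  refine (sum_le_sum h).trans (le_of_eq ?_)
  rw [sum_add_distrib, ← mul_sum, sum_const, card_univ, Fintype.card_fin]
  simp

theorem disc_lower (n M k : ℕ) [NeZero M] (hM : 2 * (n * k + 1) ≤ M) (x y : Fin n → ℝ)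
    (hxy : ∑ t, |x t - y t| ≤ k) :
    n * (∑ t, |x t - y t|) - n ≤ (tlen n M (disc n M x - disc n M y) : ℝ) := by
  unfold tlen
  push_cast
  have h : ∀ t ∈ (univ : Finset (Fin n)), n * |x t - y t| - 1 ≤
      (((disc n M x - disc n M y) t).valMinAbs.natAbs : ℝ) := by
    intro t _
    have h0 : |x t - y t| ≤ k := by
      refine le_trans ?_ hxy
      exact single_le_sum (f := fun t => |x t - y t|) (fun i _ => abs_nonneg _) (mem_univ t)
    have h3 : |(n : ℝ) * x t - n * y t| = n * |x t - y t| := by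
      rw [← mul_sub, abs_mul, Nat.abs_cast]
    have h4 := natAbs_floor_sub ((n : ℝ) * x t) ((n : ℝ) * y t)
    rw [h3] at h4
    have h5 : (⌊(n : ℝ) * x t⌋ - ⌊(n : ℝ) * y t⌋).natAbs ≤ M / 2 := by
      have h6 : ((⌊(n : ℝ) * x t⌋ - ⌊(n : ℝ) * y t⌋).natAbs : ℝ) ≤ ((n * k + 1 : ℕ) : ℝ) := by
        push_cast
        have := mul_le_mul_of_nonneg_left h0 (Nat.cast_nonneg (α := ℝ) n)
        linarith
      have h7 : (⌊(n : ℝ) * x t⌋ - ⌊(n : ℝ) * y t⌋).natAbs ≤ n * k + 1 := by exact_mod_cast h6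
      omega
    have h1 : (⌊(n : ℝ) * x t⌋ - ⌊(n : ℝ) * y t⌋).natAbs ≤
        ((disc n M x - disc n M y) t).valMinAbs.natAbs := by
      apply ZMod.natAbs_min_of_le_div_two M _ _ _ h5
      rw [ZMod.coe_valMinAbs]
      simp [disc]
    have h2 := natAbs_floor_sub' ((n : ℝ) * x t) ((n : ℝ) * y t)
    rw [h3] at h2
    have h1' : ((⌊(n : ℝ) * x t⌋ - ⌊(n : ℝ) * y t⌋).natAbs : ℝ) ≤
        (((disc n M x - disc n M y) t).valMinAbs.natAbs : ℝ) := by exact_mod_cast h1
    linarith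
  refine le_trans (le_of_eq ?_) (sum_le_sum h)
  rw [sum_sub_distrib, ← mul_sum, sum_const, card_univ, Fintype.card_fin]
  simp

end Pool.Agent.Lib.MP_a3e24b_co
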